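import Pool.Agent.MNV.Stmts
import Pool.Agent.Helper31_MNU.CFD

set_option autoImplicit false

/-! # Squad MNV, row LDC -/

namespace Pool.Agent.MNV.H31

open Polynomial NumberField
open Pool.Agent.MNT Pool.Agent.MNU

theorem ldc (hsi : MNU.HsiStmt) (mob : MNU.MobStmt) (moi : MNU.MoiStmt) (cne : MNU.CneStmt)
    (pel : MNT.PelStmt) : LdcStmt := by
  intro g K M _ _ _ _ _ f Y α β γ δ hmod x y h1 h2 h3 h4
  exact ⟨hmod.deg_Y,
    MNU.H31.cfg_of_degree hsi mob moi cne pel g K M f Y α β γ δ hmod x y h1 h2 h3 h4⟩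

end Pool.Agent.MNV.H31
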